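import Mathlib

open Filter Topology MeasureTheory Set
open scoped ENNReal Real

namespace Pool.Agent.Results.MP_7489b4_an.NoSecondKind

/-- The metric `ρ_α((x, y), (ξ, η)) = max (α⁻¹ |x - ξ|, |y - η|)` on the plane. -/
noncomputable def rho (α : ℝ) (p q : ℝ × ℝ) : ℝ := max (α⁻¹ * |p.1 - q.1|) |p.2 - q.2|

/-- The lower function `min (f x, liminf_{t → x} f t)`. -/
noncomputable def lowerFn (f : ℝ → ℝ) (x : ℝ) : ℝ := min (f x) (liminf f (𝓝[≠] x))

/-- The upper function `max (f x, limsup_{t → x} f t)`. -/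
noncomputable def upperFn (f : ℝ → ℝ) (x : ℝ) : ℝ := max (f x) (limsup f (𝓝[≠] x))

/-- The completed graph of `f`: all `(x, y)` with `lowerFn f x ≤ y ≤ upperFn f x`. -/
def completedGraph (f : ℝ → ℝ) : Set (ℝ × ℝ) :=
  {p | lowerFn f p.1 ≤ p.2 ∧ p.2 ≤ upperFn f p.1}

/-- The Hausdorff distance of two plane sets with respect to the metric `ρ_α`. -/
noncomputable def hausdorffDist (α : ℝ) (A B : Set (ℝ × ℝ)) : ℝ≥0∞ :=
  max (⨆ p ∈ A, ⨅ q ∈ B, ENNReal.ofReal (rho α p q))
    (⨆ q ∈ B, ⨅ p ∈ A, ENNReal.ofReal (rho α p q))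

/-- `r(α; f, g)`: the Hausdorff distance of the completed graphs of `f` and `g`. -/
noncomputable def r (α : ℝ) (f g : ℝ → ℝ) : ℝ≥0∞ :=
  hausdorffDist α (completedGraph f) (completedGraph g)


/-- The Gauss-Weierstrass operator `W_n`. -/
noncomputable def W (n : ℕ) (f : ℝ → ℝ) (x : ℝ) : ℝ :=
  √((n : ℝ) / π) * ∫ s : ℝ, f (x + s) * Real.exp (-((n : ℝ) * s ^ 2))

/-- The Poisson operator `P_ρ`. -/
noncomputable def P (ρ : ℝ) (f : ℝ → ℝ) (x : ℝ) : ℝ :=
  1 / (2 * π) * ∫ s in (-π)..π, f (x + s) * ((1 - ρ ^ 2) / (1 + ρ ^ 2 - 2 * ρ * Real.cos s))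

/-- The de la Vallee-Poussin operator `V_n`. -/
noncomputable def V (n : ℕ) (f : ℝ → ℝ) (x : ℝ) : ℝ :=
  ((n.factorial : ℝ) ^ 2 / ((2 * n).factorial : ℝ)) *
    (1 / (2 * π) * ∫ s in (-π)..π, f (x + s) * (2 * Real.cos (s / 2)) ^ (2 * n))

/-- Condition (W): `limsup_{n → ∞} √n r(α; f, W_n f) < ∞`. -/
def CondW (α : ℝ) (f : ℝ → ℝ) : Prop :=
  limsup (fun n : ℕ => ENNReal.ofReal (√(n : ℝ)) * r α f (W n f)) atTop < ⊤

/-- Condition (P): `limsup_{ρ → 1-} r(α; f, P_ρ f) / (1 - ρ) < ∞`. -/
def CondP (α : ℝ) (f : ℝ → ℝ) : Prop :=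
  limsup (fun ρ : ℝ => r α f (P ρ f) / ENNReal.ofReal (1 - ρ)) (𝓝[<] 1) < ⊤

/-- Condition (V): `limsup_{n → ∞} √n r(α; f, V_n f) < ∞`. -/
def CondV (α : ℝ) (f : ℝ → ℝ) : Prop :=
  limsup (fun n : ℕ => ENNReal.ofReal (√(n : ℝ)) * r α f (V n f)) atTop < ⊤

/-- `x` is a point of discontinuity of the second kind of `f`: `f` is not continuous at `x`
and the two one-sided limits do not both exist. -/
def IsSecondKind (f : ℝ → ℝ) (x : ℝ) : Prop :=
  ¬ ContinuousAt f x ∧
    ¬ ((∃ a : ℝ, Tendsto f (𝓝[<] x) (𝓝 a)) ∧ (∃ b : ℝ, Tendsto f (𝓝[>] x) (𝓝 b)))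

section aux

variable {f : ℝ → ℝ} {B : ℝ}

lemma bdd_above (hB : ∀ x, |f x| ≤ B) (l : Filter ℝ) : IsBoundedUnder (· ≤ ·) l f :=
  isBoundedUnder_of ⟨B, fun x => (abs_le.mp (hB x)).2⟩

lemma bdd_below (hB : ∀ x, |f x| ≤ B) (l : Filter ℝ) : IsBoundedUnder (· ≥ ·) l f :=
  isBoundedUnder_of ⟨-B, fun x => (abs_le.mp (hB x)).1⟩

lemma eventually_lt_upper (hB : ∀ x, |f x| ≤ B) (x0 : ℝ) {ε : ℝ} (hε : 0 < ε) :
    ∀ᶠ t in 𝓝 x0, f t < upperFn f x0 + ε := by
  have h1 : ∀ᶠ t in 𝓝[≠] x0, f t < upperFn f x0 + ε := by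
    refine eventually_lt_of_limsup_lt ?_ (bdd_above hB _)
    have := le_max_right (f x0) (limsup f (𝓝[≠] x0))
    unfold upperFn
    linarith
  rw [eventually_nhdsWithin_iff] at h1
  filter_upwards [h1] with t ht
  by_cases h : t = x0
  · subst h
    have := le_max_left (f t) (limsup f (𝓝[≠] t))
    unfold upperFn
    linarith
  · exact ht h

lemma eventually_gt_lower (hB : ∀ x, |f x| ≤ B) (x0 : ℝ) {ε : ℝ} (hε : 0 < ε) :
    ∀ᶠ t in 𝓝 x0, lowerFn f x0 - ε < f t := by
  have h1 : ∀ᶠ t in 𝓝[≠] x0, lowerFn f x0 - ε < f t := by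
    refine eventually_lt_of_lt_liminf ?_ (bdd_below hB _)
    have := min_le_right (f x0) (liminf f (𝓝[≠] x0))
    unfold lowerFn
    linarith
  rw [eventually_nhdsWithin_iff] at h1
  filter_upwards [h1] with t ht
  by_cases h : t = x0
  · subst h
    have := min_le_left (f t) (liminf f (𝓝[≠] t))
    unfold lowerFn
    linarith
  · exact ht h

lemma exists_near_upper (hB : ∀ x, |f x| ≤ B) {x y : ℝ} (hy : y ≤ upperFn f x) {ε η : ℝ}
    (hε : 0 < ε) (hη : 0 < η) : ∃ x', |x' - x| < η ∧ y - ε < f x' := by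
  by_cases h : y - ε < f x
  · exact ⟨x, by simpa using hη, h⟩
  · push Not at h
    have h2 : y - ε < limsup f (𝓝[≠] x) := by
      unfold upperFn at hy
      rcases le_max_iff.mp hy with h3 | h3 <;> linarith
    have h3 := frequently_lt_of_lt_limsup (bdd_below hB _).isCoboundedUnder_le h2
    have h4 : ∀ᶠ t in 𝓝[≠] x, |t - x| < η := by
      apply eventually_nhdsWithin_of_eventually_nhds
      exact Metric.ball_mem_nhds x hη
    obtain ⟨t, ht1, ht2⟩ := (h3.and_eventually h4).exists
    exact ⟨t, ht2, ht1⟩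

lemma exists_near_lower (hB : ∀ x, |f x| ≤ B) {x y : ℝ} (hy : lowerFn f x ≤ y) {ε η : ℝ}
    (hε : 0 < ε) (hη : 0 < η) : ∃ x', |x' - x| < η ∧ f x' < y + ε := by
  by_cases h : f x < y + ε
  · exact ⟨x, by simpa using hη, h⟩
  · push Not at h
    have h2 : liminf f (𝓝[≠] x) < y + ε := by
      unfold lowerFn at hy
      rcases min_le_iff.mp hy with h3 | h3 <;> linarith
    have h3 := frequently_lt_of_liminf_lt (bdd_above hB _).isCoboundedUnder_ge h2
    have h4 : ∀ᶠ t in 𝓝[≠] x, |t - x| < η := by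
      apply eventually_nhdsWithin_of_eventually_nhds
      exact Metric.ball_mem_nhds x hη
    obtain ⟨t, ht1, ht2⟩ := (h3.and_eventually h4).exists
    exact ⟨t, ht2, ht1⟩

lemma lower_le (f : ℝ → ℝ) (x : ℝ) : lowerFn f x ≤ f x := min_le_left _ _

lemma le_upper (f : ℝ → ℝ) (x : ℝ) : f x ≤ upperFn f x := le_max_left _ _

/-- a point of the completed graph of `f` is close to a point of the completed graph of `g`. -/
lemma exists_of_r_lt {α : ℝ} {f g : ℝ → ℝ} {c : ℝ} (h : r α f g < ENNReal.ofReal c)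
    {p : ℝ × ℝ} (hp : p ∈ completedGraph f) : ∃ q ∈ completedGraph g, rho α p q < c := by
  have h1 : (⨅ q ∈ completedGraph g, ENNReal.ofReal (rho α p q)) < ENNReal.ofReal c := by
    refine lt_of_le_of_lt ?_ h
    refine le_trans ?_ (le_max_left _ _)
    exact le_iSup₂ (f := fun p (_ : p ∈ completedGraph f) =>
      (⨅ q ∈ completedGraph g, ENNReal.ofReal (rho α p q))) p hp
  simp only [iInf_lt_iff] at h1
  obtain ⟨q, hq, h2⟩ := h1
  refine ⟨q, hq, ?_⟩
  by_contra h3
  push Not at h3
  exact absurd h2 (not_lt.mpr (ENNReal.ofReal_le_ofReal h3))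

lemma continuousAt_of_upper_le_lower (hB : ∀ x, |f x| ≤ B) {x0 : ℝ}
    (h : upperFn f x0 ≤ lowerFn f x0) : ContinuousAt f x0 := by
  rw [Metric.continuousAt_iff']
  intro ε hε
  filter_upwards [eventually_lt_upper hB x0 hε, eventually_gt_lower hB x0 hε] with t h1 h2
  have h3 := lower_le f x0
  have h4 := le_upper f x0
  rw [Real.dist_eq, abs_lt]
  constructor <;> linarith

lemma one_side {a k : ℝ → ℝ} (ha : AEMeasurable a) {D' : ℝ} (hD' : ∀ t, |a t| ≤ D') {D : ℝ}
    (hD : ∀ t, -D ≤ a t) (hk : Integrable k) (hk0 : ∀ s, 0 ≤ k s)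
    {x0 x' η δ c A : ℝ} (ha0 : ∀ t, |t - x0| < η → 0 ≤ a t) (hδ : 0 < δ)
    (hx' : |x' - x0| ≤ (A - 1) * δ) (hA : A * δ < η / 2)
    (hlow : ∀ s, |s| ≤ A * δ → c ≤ δ * k s) :
    (c / δ) * (∫ t in Icc (x0 - δ) (x0 + δ), a t) - D * (∫ s in {s : ℝ | η / 2 ≤ |s|}, k s) ≤
      ∫ s, a (x' + s) * k s := by
  have hms : MeasurableSet {s : ℝ | η / 2 ≤ |s|} := measurableSet_le measurable_const (by fun_prop)
  have haint : IntegrableOn a (Icc (x0 - δ) (x0 + δ)) := by
    refine Measure.integrableOn_of_bounded (M := D') (by simp) ha.aestronglyMeasurable ?_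
    exact ae_of_all _ fun t => by simpa using hD' t
  have hind : Integrable ((Icc (x0 - δ) (x0 + δ)).indicator a) :=
    (integrable_indicator_iff measurableSet_Icc).mpr haint
  have hind' : Integrable (fun s => (Icc (x0 - δ) (x0 + δ)).indicator a (x' + s)) :=
    hind.comp_add_left x'
  have hindk : Integrable ({s : ℝ | η / 2 ≤ |s|}.indicator k) :=
    (integrable_indicator_iff hms).mpr hk.integrableOn
  have e1 : ∫ s, (Icc (x0 - δ) (x0 + δ)).indicator a (x' + s) = ∫ t in Icc (x0 - δ) (x0 + δ), a t := by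
    rw [integral_add_left_eq_self (fun s => (Icc (x0 - δ) (x0 + δ)).indicator a s) x']
    exact integral_indicator measurableSet_Icc
  have e2 : ∫ s, {s : ℝ | η / 2 ≤ |s|}.indicator k s = ∫ s in {s : ℝ | η / 2 ≤ |s|}, k s :=
    integral_indicator hms
  rw [← e1, ← e2, ← integral_const_mul, ← integral_const_mul, ← integral_sub]
  · refine integral_mono ?_ ?_ ?_
    · exact (hind'.const_mul _).sub (hindk.const_mul _)
    · have hq : AEMeasurable (fun s => a (x' + s)) := by
        exact ha.comp_quasiMeasurePreserving (measurePreserving_add_left volume x').quasiMeasurePreserving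
      refine Integrable.bdd_mul (c := D') hk hq.aestronglyMeasurable ?_
      exact ae_of_all _ fun t => by simpa using hD' (x' + t)
    · intro s
      simp only
      by_cases h1 : x' + s ∈ Icc (x0 - δ) (x0 + δ)
      · have h2 : |s| ≤ A * δ := by
          have h3 := (abs_le.mp hx')
          rw [abs_le]
          constructor <;> [linarith [h1.1, h1.2]; linarith [h1.1, h1.2]]
        have h4 : s ∉ {s : ℝ | η / 2 ≤ |s|} := by
          simp only [mem_ofPred_eq, not_le]
          linarith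
        rw [indicator_of_mem h1, indicator_of_notMem h4]
        have h5 : 0 ≤ a (x' + s) := by
          apply ha0
          have h6 : δ ≤ A * δ := by
            have := abs_nonneg (x' - x0)
            nlinarith
          rw [abs_lt]
          constructor <;> linarith [h1.1, h1.2]
        have h7 : c / δ ≤ k s := by
          rw [div_le_iff₀ hδ]
          linarith [hlow s h2]
        nlinarith
      · rw [indicator_of_notMem h1]
        by_cases h2 : s ∈ {s : ℝ | η / 2 ≤ |s|}
        · rw [indicator_of_mem h2]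
          nlinarith [hD (x' + s), hk0 s]
        · rw [indicator_of_notMem h2]
          simp only [mem_ofPred_eq, not_le] at h2
          have h5 : 0 ≤ a (x' + s) := by
            apply ha0
            have h6 : |x' - x0| < η / 2 := by
              refine lt_of_le_of_lt hx' ?_
              nlinarith
            have h7 := abs_lt.mp h6
            have h8 := abs_lt.mp h2
            rw [abs_lt]
            constructor <;> linarith
          have := mul_nonneg h5 (hk0 s)
          simpa using this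
  · exact hind'.const_mul _
  · exact hindk.const_mul _

end aux

theorem key {ι : Type*} {l : Filter ι} [l.NeBot] {f : ℝ → ℝ} (hfm : AEMeasurable f) {B : ℝ}
    (hB : ∀ x, |f x| ≤ B) {k : ι → ℝ → ℝ} {δ : ι → ℝ}
    (hk0 : ∀ᶠ i in l, ∀ s, 0 ≤ k i s) (hkint : ∀ᶠ i in l, Integrable (k i))
    (hk1 : ∀ᶠ i in l, ∫ s, k i s = 1)
    (hδpos : ∀ᶠ i in l, 0 < δ i) (hδ : Tendsto δ l (𝓝 0))
    (hconc : ∀ η > 0, Tendsto (fun i => ∫ s in {s : ℝ | η ≤ |s|}, k i s) l (𝓝 0))
    (hlow : ∀ A > 0, ∃ c > 0, ∀ᶠ i in l, ∀ s, |s| ≤ A * δ i → c ≤ δ i * k i s)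
    {α : ℝ} (hα : 0 < α) {C : ℝ} (hCpos : 0 < C)
    {g : ι → ℝ → ℝ} (hg : ∀ᶠ i in l, ∀ x, g i x = ∫ s, f (x + s) * k i s)
    (hC : ∀ᶠ i in l, r α f (g i) < ENNReal.ofReal (C * δ i)) : Continuous f := by
  rw [continuous_iff_continuousAt]
  intro x0
  by_contra hcon
  have hMm : lowerFn f x0 < upperFn f x0 := by
    by_contra h
    exact hcon (continuousAt_of_upper_le_lower hB (not_lt.mp h))
  set M := upperFn f x0 with hM
  set m := lowerFn f x0 with hm
  obtain ⟨c, hc, hlowc⟩ := hlow (α * C + 2) (by positivity)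
  set ε := c * (M - m) / 4 with hε
  have hεpos : 0 < ε := by
    have : 0 < M - m := by linarith
    positivity
  have hB0 : 0 ≤ B := le_trans (abs_nonneg _) (hB 0)
  obtain ⟨η, hη, hηM⟩ := Metric.eventually_nhds_iff.mp
    ((eventually_lt_upper hB x0 hεpos).and (eventually_gt_lower hB x0 hεpos))
  have hlim : Tendsto (fun i => 2 * (C + 1) * δ i + 4 * B * ∫ s in {s : ℝ | η / 2 ≤ |s|}, k i s) l
      (𝓝 (2 * (C + 1) * 0 + 4 * B * 0)) :=
    (hδ.const_mul _).add ((hconc (η / 2) (by positivity)).const_mul _)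
  have hpos : 0 < c * (M - m) := by
    have : 0 < M - m := by linarith
    positivity
  have hev1 : ∀ᶠ i in l, 2 * (C + 1) * δ i + 4 * B * (∫ s in {s : ℝ | η / 2 ≤ |s|}, k i s) <
      c * (M - m) := hlim.eventually_lt_const (by simpa using hpos)
  have hev2 : ∀ᶠ i in l, (α * C + 2) * δ i < η / 2 := by
    have : Tendsto (fun i => (α * C + 2) * δ i) l (𝓝 ((α * C + 2) * 0)) := hδ.const_mul _
    exact this.eventually_lt_const (by simpa using (by positivity : 0 < η / 2))
  obtain ⟨i, h0, hint, h1, hd, hl, hgi, hCi, he1, he2⟩ := (hk0.and (hkint.and (hk1.and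
    (hδpos.and (hlowc.and (hg.and (hC.and (hev1.and hev2)))))))).exists
  have hbg : ∀ x, |g i x| ≤ B := by
    intro x
    rw [hgi x]
    calc |∫ s, f (x + s) * k i s| ≤ ∫ s, |f (x + s) * k i s| := abs_integral_le_integral_abs
      _ ≤ ∫ s, B * k i s := by
        refine integral_mono_of_nonneg (ae_of_all _ fun s => abs_nonneg _) (hint.const_mul B)
          (ae_of_all _ fun s => ?_)
        simp only [abs_mul, abs_of_nonneg (h0 s)]
        exact mul_le_mul_of_nonneg_right (hB _) (h0 s)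
      _ = B := by rw [integral_const_mul, h1, mul_one]
  -- the integrability of translates
  have hfi : ∀ x, Integrable (fun s => f (x + s) * k i s) := by
    intro x
    have hq : AEMeasurable (fun s => f (x + s)) :=
      hfm.comp_quasiMeasurePreserving (measurePreserving_add_left volume x).quasiMeasurePreserving
    refine Integrable.bdd_mul (c := B) hint hq.aestronglyMeasurable ?_
    exact ae_of_all _ fun t => by simpa using hB (x + t)
  -- upper point
  have hup : ∃ x', |x' - x0| ≤ (α * C + 2 - 1) * δ i ∧ M - (C + 1) * δ i ≤ g i x' := by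
    obtain ⟨q, hq, hq2⟩ := exists_of_r_lt hCi (p := (x0, M))
      ⟨le_trans (lower_le f x0) (le_upper f x0), le_rfl⟩
    have hq3 : α⁻¹ * |x0 - q.1| < C * δ i := lt_of_le_of_lt (le_max_left _ _) hq2
    have hq4 : |M - q.2| < C * δ i := lt_of_le_of_lt (le_max_right _ _) hq2
    obtain ⟨x', hx1, hx2⟩ := exists_near_upper hbg hq.2 hd hd
    have hq5 : |x0 - q.1| < α * (C * δ i) := by
      rwa [inv_mul_lt_iff₀ hα] at hq3
    refine ⟨x', ?_, ?_⟩
    · have := abs_sub_le x' q.1 x0
      rw [abs_sub_comm x0 q.1] at hq5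
      nlinarith
    · have := (abs_lt.mp hq4).2
      nlinarith
  have hdown : ∃ x', |x' - x0| ≤ (α * C + 2 - 1) * δ i ∧ g i x' ≤ m + (C + 1) * δ i := by
    obtain ⟨q, hq, hq2⟩ := exists_of_r_lt hCi (p := (x0, m))
      ⟨le_rfl, le_trans (lower_le f x0) (le_upper f x0)⟩
    have hq3 : α⁻¹ * |x0 - q.1| < C * δ i := lt_of_le_of_lt (le_max_left _ _) hq2
    have hq4 : |m - q.2| < C * δ i := lt_of_le_of_lt (le_max_right _ _) hq2
    obtain ⟨x', hx1, hx2⟩ := exists_near_lower hbg hq.1 hd hd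
    have hq5 : |x0 - q.1| < α * (C * δ i) := by
      rwa [inv_mul_lt_iff₀ hα] at hq3
    refine ⟨x', ?_, ?_⟩
    · have := abs_sub_le x' q.1 x0
      rw [abs_sub_comm x0 q.1] at hq5
      nlinarith
    · have := (abs_lt.mp hq4).1
      nlinarith
  obtain ⟨x', hx', hgx'⟩ := hup
  obtain ⟨x'', hx'', hgx''⟩ := hdown
  have hMB : |M| ≤ B := by
    have h3 : M ≤ B := by
      refine le_of_forall_pos_le_add fun e he => ?_
      obtain ⟨t, _, ht⟩ := exists_near_upper hB (le_refl (upperFn f x0)) he one_pos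
      have := (abs_le.mp (hB t)).2
      linarith
    have h4 : -B ≤ M := le_trans (abs_le.mp (hB x0)).1 (le_upper f x0)
    exact abs_le.mpr ⟨h4, h3⟩
  have hmB : |m| ≤ B := by
    have h3 : -B ≤ m := by
      refine le_of_forall_pos_le_add fun e he => ?_
      obtain ⟨t, _, ht⟩ := exists_near_lower hB (le_refl (lowerFn f x0)) he one_pos
      have := (abs_le.mp (hB t)).1
      linarith
    have h4 : m ≤ B := le_trans (lower_le f x0) (abs_le.mp (hB x0)).2
    exact abs_le.mpr ⟨h3, h4⟩
  have hA := one_side (a := fun t => M + ε - f t) (k := k i) (D' := 2 * B + ε) (D := 2 * B)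
    (hfm.const_sub _) (fun t => by
      have h1 := abs_le.mp (hB t)
      have h2 := abs_le.mp hMB
      rw [abs_le]; constructor <;> linarith)
    (fun t => by
      have h1 := abs_le.mp (hB t)
      have h2 := abs_le.mp hMB
      linarith) hint h0 (x0 := x0) (x' := x') (η := η) (δ := δ i) (c := c) (A := α * C + 2)
      (fun t ht => by
        have := (hηM (by rwa [Real.dist_eq])).1
        linarith) hd hx' he2 hl
  have hA' := one_side (a := fun t => f t - m + ε) (k := k i) (D' := 2 * B + ε) (D := 2 * B)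
    ((hfm.sub_const _).add_const _) (fun t => by
      have h1 := abs_le.mp (hB t)
      have h2 := abs_le.mp hmB
      rw [abs_le]; constructor <;> linarith)
    (fun t => by
      have h1 := abs_le.mp (hB t)
      have h2 := abs_le.mp hmB
      linarith) hint h0 (x0 := x0) (x' := x'') (η := η) (δ := δ i) (c := c) (A := α * C + 2)
      (fun t ht => by
        have := (hηM (by rwa [Real.dist_eq])).2
        linarith) hd hx'' he2 hl
  have i1 : ∫ s, (M + ε - f (x' + s)) * k i s = M + ε - g i x' := by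
    have : (fun s => (M + ε - f (x' + s)) * k i s) = fun s => (M + ε) * k i s - f (x' + s) * k i s := by
      funext s; ring
    rw [this, integral_sub (hint.const_mul _) (hfi x'), integral_const_mul, h1, hgi x', mul_one]
  have i2 : ∫ s, (f (x'' + s) - m + ε) * k i s = g i x'' - m + ε := by
    have : (fun s => (f (x'' + s) - m + ε) * k i s) = fun s => f (x'' + s) * k i s + (ε - m) * k i s := by
      funext s; ring
    rw [this, integral_add (hfi x'') (hint.const_mul _), integral_const_mul, h1, hgi x'', mul_one]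
    ring
  have hfI : IntegrableOn f (Icc (x0 - δ i) (x0 + δ i)) := by
    refine Measure.integrableOn_of_bounded (M := B) (by simp) hfm.aestronglyMeasurable ?_
    exact ae_of_all _ fun t => by simpa using hB t
  have i3 : (∫ t in Icc (x0 - δ i) (x0 + δ i), (M + ε - f t)) +
      (∫ t in Icc (x0 - δ i) (x0 + δ i), (f t - m + ε)) = (M - m + 2 * ε) * (2 * δ i) := by
    rw [← integral_add]
    · have : (fun t => M + ε - f t + (f t - m + ε)) = fun _ => M - m + 2 * ε := by
        funext t; ring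
      rw [this, setIntegral_const]
      simp only [measureReal_def, Real.volume_Icc, smul_eq_mul]
      rw [ENNReal.toReal_ofReal (by linarith)]
      ring
    · exact (integrable_const _).sub hfI
    · exact (hfI.sub (integrable_const _)).add (integrable_const _)
  rw [i1] at hA
  rw [i2] at hA'
  have hsum : c / δ i * ((∫ t in Icc (x0 - δ i) (x0 + δ i), (M + ε - f t)) +
      (∫ t in Icc (x0 - δ i) (x0 + δ i), (f t - m + ε))) -
      4 * B * (∫ s in {s : ℝ | η / 2 ≤ |s|}, k i s) ≤ (M + ε - g i x') + (g i x'' - m + ε) := by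
    linarith
  rw [i3] at hsum
  have e3 : c / δ i * ((M - m + 2 * ε) * (2 * δ i)) = 2 * c * (M - m + 2 * ε) := by
    field_simp
  rw [e3] at hsum
  have : 0 < c * ε := by positivity
  nlinarith


lemma exists_const_of_limsup_lt {ι : Type*} {l : Filter ι} {u : ι → ℝ≥0∞} (h : limsup u l < ⊤) :
    ∃ C : ℝ, 0 < C ∧ ∀ᶠ i in l, u i < ENNReal.ofReal C := by
  obtain ⟨c, hc1, hc2⟩ := ENNReal.lt_iff_exists_nnreal_btwn.mp h
  refine ⟨c + 1, by positivity, ?_⟩
  filter_upwards [eventually_lt_of_limsup_lt hc1] with i hi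
  refine lt_of_lt_of_le hi ?_
  rw [ENNReal.ofReal_add (by positivity) zero_le_one]
  simp

theorem continuous_of_condW {α : ℝ} (hα : 0 < α) {f : ℝ → ℝ} (hfm : AEMeasurable f) {B : ℝ}
    (hB : ∀ x, |f x| ≤ B) (h : CondW α f) : Continuous f := by
  obtain ⟨C, hC, hCe⟩ := exists_const_of_limsup_lt h
  refine key (l := (atTop : Filter ℕ)) hfm hB
    (k := fun n s => √((n : ℝ) / π) * Real.exp (-((n : ℝ) * s ^ 2)))
    (δ := fun n => 1 / √(n : ℝ)) ?_ ?_ ?_ ?_ ?_ ?_ ?_ hα hC (g := fun n => W n f) ?_ ?_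
  · exact Eventually.of_forall fun n s => by positivity
  · filter_upwards [eventually_gt_atTop 0] with n hn
    have hn' : (0 : ℝ) < n := by exact_mod_cast hn
    have := (integrable_exp_neg_mul_sq hn').const_mul √((n : ℝ) / π)
    simpa only [neg_mul] using this
  · filter_upwards [eventually_gt_atTop 0] with n hn
    have hn' : (0 : ℝ) < n := by exact_mod_cast hn
    have := integral_gaussian (n : ℝ)
    simp only [neg_mul] at this
    rw [integral_const_mul, this, ← Real.sqrt_mul (by positivity)]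
    have : (n : ℝ) / π * (π / n) = 1 := by field_simp
    rw [this, Real.sqrt_one]
  · filter_upwards [eventually_gt_atTop 0] with n hn
    have hn' : (0 : ℝ) < n := by exact_mod_cast hn
    positivity
  · have h1 : Tendsto (fun n : ℕ => √(n : ℝ)) atTop atTop :=
      (Real.tendsto_sqrt_atTop).comp tendsto_natCast_atTop_atTop
    exact (tendsto_const_nhds (x := (1 : ℝ))).div_atTop h1
  · intro η hη
    have hlim : Tendsto (fun n : ℕ => √2 * Real.exp (-((n : ℝ) * (η ^ 2 / 2)))) atTop (𝓝 0) := by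
      have h1 : Tendsto (fun n : ℕ => (n : ℝ) * (η ^ 2 / 2)) atTop atTop :=
        tendsto_natCast_atTop_atTop.atTop_mul_const (by positivity)
      have h2 := (Real.tendsto_exp_neg_atTop_nhds_zero.comp h1).const_mul √2
      simpa using h2
    refine squeeze_zero' (Eventually.of_forall fun n => ?_) ?_ hlim
    · exact setIntegral_nonneg_of_ae_restrict (ae_of_all _ fun s => by positivity)
    · filter_upwards [eventually_gt_atTop 0] with n hn
      have hn' : (0 : ℝ) < n := by exact_mod_cast hn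
      have hms : MeasurableSet {s : ℝ | η ≤ |s|} := measurableSet_le measurable_const (by fun_prop)
      have hI1 : Integrable (fun s : ℝ => √((n : ℝ) / π) * Real.exp (-((n : ℝ) * s ^ 2))) := by
        have := (integrable_exp_neg_mul_sq hn').const_mul √((n : ℝ) / π)
        simpa only [neg_mul] using this
      have hI2 : Integrable (fun s : ℝ => √((n : ℝ) / π) * Real.exp (-((n : ℝ) * (η ^ 2 / 2))) *
          Real.exp (-((n : ℝ) / 2 * s ^ 2))) := by
        have := (integrable_exp_neg_mul_sq (b := (n : ℝ) / 2) (by positivity)).const_mul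
          (√((n : ℝ) / π) * Real.exp (-((n : ℝ) * (η ^ 2 / 2))))
        simpa only [neg_mul] using this
      calc ∫ s in {s : ℝ | η ≤ |s|}, √((n : ℝ) / π) * Real.exp (-((n : ℝ) * s ^ 2))
          ≤ ∫ s in {s : ℝ | η ≤ |s|}, √((n : ℝ) / π) * Real.exp (-((n : ℝ) * (η ^ 2 / 2))) *
              Real.exp (-((n : ℝ) / 2 * s ^ 2)) := by
            refine setIntegral_mono_on hI1.integrableOn hI2.integrableOn hms ?_
            intro s hs
            rw [mul_assoc, ← Real.exp_add]
            refine mul_le_mul_of_nonneg_left (Real.exp_le_exp.mpr ?_) (Real.sqrt_nonneg _)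
            have h2 : η ^ 2 ≤ s ^ 2 := by
              rw [← sq_abs s]
              exact pow_le_pow_left₀ hη.le hs 2
            nlinarith
        _ ≤ ∫ s, √((n : ℝ) / π) * Real.exp (-((n : ℝ) * (η ^ 2 / 2))) *
              Real.exp (-((n : ℝ) / 2 * s ^ 2)) := by
            refine setIntegral_le_integral hI2 (ae_of_all _ fun s => ?_)
            simp only [Pi.zero_apply]
            positivity
        _ = √2 * Real.exp (-((n : ℝ) * (η ^ 2 / 2))) := by
            have := integral_gaussian ((n : ℝ) / 2)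
            simp only [neg_mul] at this
            rw [integral_const_mul, this]
            have h3 : √((n : ℝ) / π) * √(π / (n / 2)) = √2 := by
              rw [← Real.sqrt_mul (by positivity)]
              congr 1
              field_simp
            rw [mul_right_comm, h3]
  · intro A hA
    refine ⟨1 / √π * Real.exp (-(A ^ 2)), by positivity, ?_⟩
    filter_upwards [eventually_gt_atTop 0] with n hn s hs
    have hn' : (0 : ℝ) < n := by exact_mod_cast hn
    have h1 : √((n : ℝ) / π) = √(n : ℝ) / √π := Real.sqrt_div hn'.le _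
    have h2 : (n : ℝ) * s ^ 2 ≤ A ^ 2 := by
      have h3 : |s| * √(n : ℝ) ≤ A := by
        have : 0 < √(n : ℝ) := Real.sqrt_pos.mpr hn'
        rw [mul_one_div, le_div_iff₀ this] at hs
        exact hs
      have h4 : (|s| * √(n : ℝ)) ^ 2 ≤ A ^ 2 := pow_le_pow_left₀ (by positivity) h3 2
      rw [mul_pow, sq_abs, Real.sq_sqrt hn'.le] at h4
      linarith
    rw [h1]
    have h5 : 1 / √(n : ℝ) * (√(n : ℝ) / √π * Real.exp (-((n : ℝ) * s ^ 2))) =
        1 / √π * Real.exp (-((n : ℝ) * s ^ 2)) := by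
      have : √(n : ℝ) ≠ 0 := (Real.sqrt_pos.mpr hn').ne'
      field_simp
    rw [h5]
    refine mul_le_mul_of_nonneg_left (Real.exp_le_exp.mpr (by linarith)) (by positivity)
  · refine Eventually.of_forall fun n x => ?_
    simp only [W]
    rw [← integral_const_mul]
    congr 1
    funext s
    ring
  · filter_upwards [hCe, eventually_gt_atTop 0] with n hn1 hn
    have hn' : (0 : ℝ) < n := by exact_mod_cast hn
    have hs : 0 < √(n : ℝ) := Real.sqrt_pos.mpr hn'
    rw [mul_one_div, ENNReal.ofReal_div_of_pos hs, ENNReal.lt_div_iff_mul_lt, mul_comm]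
    · exact hn1
    · left
      exact (ENNReal.ofReal_pos.mpr hs).ne'
    · left
      exact ENNReal.ofReal_ne_top


lemma poisson_den_pos {ρ : ℝ} (h0 : 0 < ρ) (h1 : ρ < 1) (s : ℝ) :
    0 < 1 + ρ ^ 2 - 2 * ρ * Real.cos s := by
  nlinarith [Real.cos_le_one s, sq_pos_of_pos (sub_pos.mpr h1), mul_pos h0 (sub_pos.mpr h1)]

lemma integral_poisson {ρ : ℝ} (h0 : 0 < ρ) (h1 : ρ < 1) :
    ∫ s in (-π)..π, ((1 - ρ ^ 2) / (1 + ρ ^ 2 - 2 * ρ * Real.cos s)) = 2 * π := by
  have hw : (ρ : ℂ) ∈ Metric.ball (0 : ℂ) 1 := by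
    simp [abs_of_pos h0, h1]
  have h := DiffContOnCl.circleAverage_poissonKernel_smul' (E := ℂ) (f := fun _ => (1 : ℂ)) (c := 0) (R := 1)
    (w := (ρ : ℂ)) (diffContOnCl_const) hw
  rw [Real.circleAverage_def] at h
  have hk : ∀ θ : ℝ, ((‖circleMap 0 1 θ - 0‖ ^ 2 - ‖(ρ : ℂ) - 0‖ ^ 2) /
      ‖(circleMap 0 1 θ - 0) - ((ρ : ℂ) - 0)‖ ^ 2) • (1 : ℂ) =
      (((1 - ρ ^ 2) / (1 + ρ ^ 2 - 2 * ρ * Real.cos θ) : ℝ) : ℂ) := by
    intro θ
    have e1 : ‖circleMap 0 1 θ - 0‖ = 1 := by simp
    have e2 : ‖(ρ : ℂ) - 0‖ = ρ := by simp [abs_of_pos h0]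
    have e3 : ‖(circleMap 0 1 θ - 0) - ((ρ : ℂ) - 0)‖ ^ 2 = 1 + ρ ^ 2 - 2 * ρ * Real.cos θ := by
      rw [← Complex.normSq_eq_norm_sq, Complex.normSq_apply]
      simp only [circleMap, sub_zero, zero_add, Complex.ofReal_one, one_mul, Complex.sub_re,
        Complex.sub_im, Complex.ofReal_re, Complex.ofReal_im, Complex.exp_ofReal_mul_I_re,
        Complex.exp_ofReal_mul_I_im]
      nlinarith [Real.sin_sq_add_cos_sq θ]
    rw [e1, e2, e3]
    simp
  simp only [hk] at h
  rw [intervalIntegral.integral_ofReal] at h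
  have hper : Function.Periodic (fun s : ℝ => (1 - ρ ^ 2) / (1 + ρ ^ 2 - 2 * ρ * Real.cos s)) (2 * π) := by
    intro s
    simp [Real.cos_add_two_pi]
  have := hper.intervalIntegral_add_eq (-π) 0
  rw [show -π + 2 * π = π by ring, zero_add] at this
  rw [this]
  have hpi : (2 * π) ≠ 0 := by positivity
  rw [Complex.real_smul] at h
  have h' : (2 * π)⁻¹ * ∫ s in (0 : ℝ)..2 * π, ((1 - ρ ^ 2) / (1 + ρ ^ 2 - 2 * ρ * Real.cos s)) = 1 := by
    exact_mod_cast h
  rw [inv_mul_eq_iff_eq_mul₀ hpi, mul_one] at h'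
  exact h'

/-- kernels supported in `(-π, π]`. -/
lemma integral_indicator_eq (F : ℝ → ℝ) :
    ∫ s, (Ioc (-π) π).indicator F s = ∫ s in (-π)..π, F s := by
  rw [integral_indicator measurableSet_Ioc, intervalIntegral.integral_of_le (by linarith [Real.pi_pos])]

lemma setIntegral_tail_le {F : ℝ → ℝ} {η D : ℝ} (hF : IntegrableOn F (Ioc (-π) π))
    (hD : ∀ s, η ≤ |s| → |s| ≤ π → F s ≤ D) (hD0 : 0 ≤ D) :
    ∫ s in {s : ℝ | η ≤ |s|}, (Ioc (-π) π).indicator F s ≤ D * (2 * π) := by
  have hms : MeasurableSet {s : ℝ | η ≤ |s|} := measurableSet_le measurable_const (by fun_prop)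
  have hI : Integrable ((Ioc (-π) π).indicator F) := (integrable_indicator_iff measurableSet_Ioc).mpr hF
  calc ∫ s in {s : ℝ | η ≤ |s|}, (Ioc (-π) π).indicator F s
      ≤ ∫ s in {s : ℝ | η ≤ |s|}, (Ioc (-π) π).indicator (fun _ => D) s := by
        refine setIntegral_mono_on hI.integrableOn ?_ hms ?_
        · exact ((integrable_indicator_iff measurableSet_Ioc).mpr (by simp [integrableOn_const_iff])).integrableOn
        · intro s hs
          by_cases h : s ∈ Ioc (-π) π
          · rw [indicator_of_mem h, indicator_of_mem h]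
            exact hD s hs (abs_le.mpr ⟨h.1.le, h.2⟩)
          · rw [indicator_of_notMem h, indicator_of_notMem h]
    _ ≤ ∫ s, (Ioc (-π) π).indicator (fun _ => D) s := by
        refine setIntegral_le_integral ?_ (ae_of_all _ fun s => ?_)
        · exact (integrable_indicator_iff measurableSet_Ioc).mpr (by simp [integrableOn_const_iff])
        · simp only [Pi.zero_apply]
          exact indicator_nonneg (fun _ _ => hD0) s
    _ = D * (2 * π) := by
        rw [integral_indicator_eq]
        simp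
        ring

theorem continuous_of_condP {α : ℝ} (hα : 0 < α) {f : ℝ → ℝ} (hfm : AEMeasurable f) {B : ℝ}
    (hB : ∀ x, |f x| ≤ B) (h : CondP α f) : Continuous f := by
  obtain ⟨C, hC, hCe⟩ := exists_const_of_limsup_lt h
  have hev : ∀ᶠ ρ : ℝ in 𝓝[<] 1, 1 / 2 < ρ ∧ ρ < 1 := by
    have h1 : ∀ᶠ ρ : ℝ in 𝓝[<] 1, ρ < 1 := self_mem_nhdsWithin
    have h2 : ∀ᶠ ρ : ℝ in 𝓝[<] 1, 1 / 2 < ρ :=
      eventually_nhdsWithin_of_eventually_nhds (lt_mem_nhds (by norm_num))
    exact h2.and h1
  have hcont : ∀ ρ : ℝ, 0 < ρ → ρ < 1 → Continuous fun s : ℝ => 1 / (2 * π) *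
      ((1 - ρ ^ 2) / (1 + ρ ^ 2 - 2 * ρ * Real.cos s)) := by
    intro ρ h0 h1
    refine continuous_const.mul (Continuous.div continuous_const (by fun_prop) fun s => ?_)
    exact (poisson_den_pos h0 h1 s).ne'
  have hδ : Tendsto (fun ρ : ℝ => 1 - ρ) (𝓝[<] 1) (𝓝 0) := by
    have : Tendsto (fun ρ : ℝ => 1 - ρ) (𝓝 1) (𝓝 (1 - 1)) := tendsto_const_nhds.sub tendsto_id
    rw [sub_self] at this
    exact this.mono_left nhdsWithin_le_nhds
  refine key (l := 𝓝[<] (1 : ℝ)) hfm hB
    (k := fun ρ => (Ioc (-π) π).indicator (fun s => 1 / (2 * π) *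
      ((1 - ρ ^ 2) / (1 + ρ ^ 2 - 2 * ρ * Real.cos s))))
    (δ := fun ρ => 1 - ρ) ?_ ?_ ?_ ?_ hδ ?_ ?_ hα hC (g := fun ρ => P ρ f) ?_ ?_
  · filter_upwards [hev] with ρ hρ s
    refine indicator_nonneg (fun s _ => ?_) s
    have := poisson_den_pos (by linarith [hρ.1]) hρ.2 s
    have h2 : 0 ≤ 1 - ρ ^ 2 := by nlinarith [hρ.1, hρ.2]
    have := Real.pi_pos
    positivity
  · filter_upwards [hev] with ρ hρ
    rw [integrable_indicator_iff measurableSet_Ioc]
    exact ((hcont ρ (by linarith [hρ.1]) hρ.2).integrableOn_Icc).mono_set Ioc_subset_Icc_self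
  · filter_upwards [hev] with ρ hρ
    rw [integral_indicator_eq, intervalIntegral.integral_const_mul,
      integral_poisson (by linarith [hρ.1]) hρ.2]
    have := Real.pi_pos
    field_simp
  · filter_upwards [hev] with ρ hρ
    linarith [hρ.2]
  · intro η hη
    have hlim : Tendsto (fun ρ : ℝ => (1 - ρ ^ 2) / (1 - Real.cos (min η π))) (𝓝[<] 1) (𝓝 0) := by
      have : Tendsto (fun ρ : ℝ => (1 - ρ ^ 2) / (1 - Real.cos (min η π))) (𝓝 1)
          (𝓝 ((1 - 1 ^ 2) / (1 - Real.cos (min η π)))) :=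
        (tendsto_const_nhds.sub (tendsto_id.pow 2)).div_const _
      have h2 : ((1 : ℝ) - 1 ^ 2) / (1 - Real.cos (min η π)) = 0 := by norm_num
      rw [h2] at this
      exact this.mono_left nhdsWithin_le_nhds
    refine squeeze_zero' ?_ ?_ hlim
    · filter_upwards [hev] with ρ hρ
      refine setIntegral_nonneg_of_ae_restrict (ae_of_all _ fun s => ?_)
      simp only [Pi.zero_apply]
      refine indicator_nonneg (fun s _ => ?_) s
      have := poisson_den_pos (by linarith [hρ.1]) hρ.2 s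
      have h2 : 0 ≤ 1 - ρ ^ 2 := by nlinarith [hρ.1, hρ.2]
      have := Real.pi_pos
      positivity
    · filter_upwards [hev] with ρ hρ
      have hmin0 : 0 < min η π := lt_min hη Real.pi_pos
      have hminpi : min η π ≤ π := min_le_right _ _
      have hcos1 : Real.cos (min η π) < 1 := by
        rw [← Real.cos_zero]
        exact Real.cos_lt_cos_of_nonneg_of_le_pi (le_refl 0) hminpi hmin0
      have h2 : 0 ≤ 1 - ρ ^ 2 := by nlinarith [hρ.1, hρ.2]
      have hc0 : 0 < 1 - Real.cos (min η π) := by linarith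
      have := setIntegral_tail_le (F := fun s => 1 / (2 * π) *
        ((1 - ρ ^ 2) / (1 + ρ ^ 2 - 2 * ρ * Real.cos s))) (η := η)
        (D := 1 / (2 * π) * ((1 - ρ ^ 2) / (1 - Real.cos (min η π))))
        (((hcont ρ (by linarith [hρ.1]) hρ.2).integrableOn_Icc).mono_set Ioc_subset_Icc_self)
        (fun s hs1 hs2 => by
          have hcos : Real.cos s ≤ Real.cos (min η π) := by
            rw [← Real.cos_abs s]
            exact Real.cos_le_cos_of_nonneg_of_le_pi hmin0.le hs2 (le_trans (min_le_left _ _) hs1)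
          have hd : 1 - Real.cos (min η π) ≤ 1 + ρ ^ 2 - 2 * ρ * Real.cos s := by
            nlinarith [hρ.1, hρ.2, sq_nonneg (1 - ρ), sq_nonneg (ρ - Real.cos s), Real.neg_one_le_cos s]
          have hpi := Real.pi_pos
          gcongr) (by have := Real.pi_pos; positivity)
      refine this.trans (le_of_eq ?_)
      have hpi := Real.pi_pos
      field_simp
  · intro A hA
    refine ⟨1 / (2 * π) * (1 / (1 + A ^ 2)), by have := Real.pi_pos; positivity, ?_⟩
    have hev2 : ∀ᶠ ρ : ℝ in 𝓝[<] 1, A * (1 - ρ) < π := by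
      have : Tendsto (fun ρ : ℝ => A * (1 - ρ)) (𝓝[<] 1) (𝓝 (A * 0)) := hδ.const_mul _
      exact this.eventually_lt_const (by simpa using Real.pi_pos)
    filter_upwards [hev, hev2] with ρ hρ hρ2 s hs
    have hmem : s ∈ Ioc (-π) π := by
      have := abs_le.mp hs
      exact ⟨by linarith, by linarith⟩
    rw [indicator_of_mem hmem]
    have hd1 : 0 < 1 - ρ := by linarith [hρ.2]
    have hcos : 1 - s ^ 2 / 2 ≤ Real.cos s := Real.one_sub_sq_div_two_le_cos
    have hs2 : s ^ 2 ≤ A ^ 2 * (1 - ρ) ^ 2 := by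
      rw [← sq_abs s, ← mul_pow]
      exact pow_le_pow_left₀ (abs_nonneg _) hs 2
    have hden : 1 + ρ ^ 2 - 2 * ρ * Real.cos s ≤ (1 + A ^ 2) * (1 - ρ) ^ 2 := by
      nlinarith [hρ.1, hρ.2, mul_le_mul_of_nonneg_left hcos (by linarith [hρ.1] : 0 ≤ 2 * ρ),
        mul_nonneg (sub_nonneg.mpr hρ.2.le) (sq_nonneg s)]
    have hdenpos := poisson_den_pos (by linarith [hρ.1]) hρ.2 s
    have hpi := Real.pi_pos
    have h5 : 1 / (1 + A ^ 2) ≤ (1 - ρ) * ((1 - ρ ^ 2) / (1 + ρ ^ 2 - 2 * ρ * Real.cos s)) := by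
      rw [← mul_div_assoc, div_le_div_iff₀ (by positivity) hdenpos, one_mul]
      refine hden.trans ?_
      have : (1 - ρ) ^ 2 ≤ (1 - ρ) * (1 - ρ ^ 2) := by nlinarith [hρ.1, hρ.2, mul_pos hd1 hd1]
      nlinarith [sq_nonneg A]
    calc 1 / (2 * π) * (1 / (1 + A ^ 2)) ≤ 1 / (2 * π) *
        ((1 - ρ) * ((1 - ρ ^ 2) / (1 + ρ ^ 2 - 2 * ρ * Real.cos s))) := by gcongr
      _ = _ := by ring
  · refine Eventually.of_forall fun ρ x => ?_
    have e : (fun s => f (x + s) * (Ioc (-π) π).indicator (fun s => 1 / (2 * π) *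
      ((1 - ρ ^ 2) / (1 + ρ ^ 2 - 2 * ρ * Real.cos s))) s) = (Ioc (-π) π).indicator (fun s =>
        1 / (2 * π) * (f (x + s) * ((1 - ρ ^ 2) / (1 + ρ ^ 2 - 2 * ρ * Real.cos s)))) := by
      funext s
      by_cases h : s ∈ Ioc (-π) π
      · rw [indicator_of_mem h, indicator_of_mem h]; ring
      · rw [indicator_of_notMem h, indicator_of_notMem h, mul_zero]
    rw [e, integral_indicator_eq, intervalIntegral.integral_const_mul]
    rfl
  · filter_upwards [hCe, hev] with ρ h1 hρ
    have hd : 0 < 1 - ρ := by linarith [hρ.2]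
    rw [ENNReal.div_lt_iff] at h1
    · rwa [ENNReal.ofReal_mul hC.le]
    · left
      exact (ENNReal.ofReal_pos.mpr hd).ne'
    · left
      exact ENNReal.ofReal_ne_top


/-- `aW n = ∏ (2 i + 1) / (2 i + 2) = (2 n)! / (4 ^ n (n!) ^ 2)`. -/
noncomputable def aW (n : ℕ) : ℝ := ∏ i ∈ Finset.range n, (2 * (i : ℝ) + 1) / (2 * i + 2)

lemma aW_pos (n : ℕ) : 0 < aW n := Finset.prod_pos fun i _ => by positivity

lemma aW_succ (n : ℕ) : aW (n + 1) = aW n * ((2 * (n : ℝ) + 1) / (2 * n + 2)) := by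
  unfold aW
  rw [Finset.prod_range_succ]

lemma aW_eq (n : ℕ) : aW n * (4 ^ n * (n.factorial : ℝ) ^ 2) = ((2 * n).factorial : ℝ) := by
  induction n with
  | zero => simp [aW]
  | succ n ih =>
    rw [aW_succ, show 2 * (n + 1) = (2 * n + 1) + 1 by ring, Nat.factorial_succ, Nat.factorial_succ,
      Nat.factorial_succ]
    push_cast
    rw [← ih]
    field_simp
    ring

lemma aW_sq_le (n : ℕ) : aW n ^ 2 * (2 * n + 1) ≤ 1 := by
  induction n with
  | zero => simp [aW]
  | succ n ih =>
    rw [aW_succ]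
    push_cast
    have h1 : (aW n * ((2 * (n : ℝ) + 1) / (2 * n + 2))) ^ 2 * (2 * (n + 1) + 1) =
      (aW n ^ 2 * (2 * n + 1)) * (((2 * (n : ℝ) + 1) * (2 * n + 3)) / (2 * n + 2) ^ 2) := by
      field_simp
      ring
    rw [h1]
    have h2 : ((2 * (n : ℝ) + 1) * (2 * n + 3)) / (2 * n + 2) ^ 2 ≤ 1 := by
      rw [div_le_one (by positivity)]
      nlinarith
    have h3 : 0 ≤ aW n ^ 2 * (2 * n + 1) := by positivity
    exact mul_le_one₀ ih (by positivity) h2

lemma aW_ge (n : ℕ) : 1 / (2 * (n : ℝ) + 1) ≤ aW n := by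
  induction n with
  | zero => simp [aW]
  | succ n ih =>
    rw [aW_succ]
    push_cast
    have h1 : 1 / (2 * (n : ℝ) + 1) * ((2 * (n : ℝ) + 1) / (2 * n + 2)) ≤
        aW n * ((2 * (n : ℝ) + 1) / (2 * n + 2)) :=
      mul_le_mul_of_nonneg_right ih (by positivity)
    refine le_trans ?_ h1
    have h2 : 1 / (2 * (n : ℝ) + 1) * ((2 * (n : ℝ) + 1) / (2 * n + 2)) = 1 / (2 * n + 2) := by
      field_simp
    rw [h2]
    apply one_div_le_one_div_of_le (by positivity)
    linarith

lemma kernelV_eq (n : ℕ) (s : ℝ) :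
    ((n.factorial : ℝ) ^ 2 / ((2 * n).factorial : ℝ)) * (1 / (2 * π)) *
      (2 * Real.cos (s / 2)) ^ (2 * n) = 1 / (2 * π * aW n) * Real.cos (s / 2) ^ (2 * n) := by
  rw [← aW_eq n, mul_pow, pow_mul 2 2 n]
  have h1 := (aW_pos n).ne'
  have h2 : (n.factorial : ℝ) ≠ 0 := by exact_mod_cast n.factorial_ne_zero
  have h3 := Real.pi_pos.ne'
  have h4 : (2 : ℝ) ^ 2 = 4 := by norm_num
  rw [h4]
  field_simp

lemma integral_cos_half_pow (n : ℕ) :
    ∫ s in (-π)..π, Real.cos (s / 2) ^ (2 * n) = 2 * (π * aW n) := by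
  have h1 := integral_sin_pow_even (n := n)
  have h2 : ∫ s in (-π)..π, Real.cos (s / 2) ^ (2 * n) =
      ∫ s in (-π)..π, (fun u => Real.sin u ^ (2 * n)) (s / 2 + π / 2) := by
    congr 1
    funext s
    simp only [Real.sin_add_pi_div_two]
  rw [h2, intervalIntegral.integral_comp_div_add (f := fun u => Real.sin u ^ (2 * n)) two_ne_zero]
  rw [show -π / 2 + π / 2 = 0 by ring, show π / 2 + π / 2 = π by ring, h1]
  simp [aW]

theorem continuous_of_condV {α : ℝ} (hα : 0 < α) {f : ℝ → ℝ} (hfm : AEMeasurable f) {B : ℝ}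
    (hB : ∀ x, |f x| ≤ B) (h : CondV α f) : Continuous f := by
  obtain ⟨C, hC, hCe⟩ := exists_const_of_limsup_lt h
  have hpi := Real.pi_pos
  have hcont : ∀ n : ℕ, Continuous fun s : ℝ => 1 / (2 * π * aW n) * Real.cos (s / 2) ^ (2 * n) := by
    intro n
    fun_prop
  refine key (l := (atTop : Filter ℕ)) hfm hB
    (k := fun n => (Ioc (-π) π).indicator (fun s => 1 / (2 * π * aW n) * Real.cos (s / 2) ^ (2 * n)))
    (δ := fun n => 1 / √(n : ℝ)) ?_ ?_ ?_ ?_ ?_ ?_ ?_ hα hC (g := fun n => V n f) ?_ ?_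
  · refine Eventually.of_forall fun n s => indicator_nonneg (fun s _ => ?_) s
    have := aW_pos n
    have h2 : 0 ≤ Real.cos (s / 2) ^ (2 * n) := by
      rw [pow_mul]; positivity
    positivity
  · refine Eventually.of_forall fun n => ?_
    rw [integrable_indicator_iff measurableSet_Ioc]
    exact ((hcont n).integrableOn_Icc).mono_set Ioc_subset_Icc_self
  · refine Eventually.of_forall fun n => ?_
    rw [integral_indicator_eq, intervalIntegral.integral_const_mul, integral_cos_half_pow]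
    have := (aW_pos n).ne'
    field_simp
  · filter_upwards [eventually_gt_atTop 0] with n hn
    have hn' : (0 : ℝ) < n := by exact_mod_cast hn
    positivity
  · have h1 : Tendsto (fun n : ℕ => √(n : ℝ)) atTop atTop :=
      (Real.tendsto_sqrt_atTop).comp tendsto_natCast_atTop_atTop
    exact (tendsto_const_nhds (x := (1 : ℝ))).div_atTop h1
  · intro η hη
    have hmin0 : 0 < min η π := lt_min hη Real.pi_pos
    have hminpi : min η π ≤ π := min_le_right _ _
    set q := Real.cos (min η π / 2) ^ 2 with hq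
    have hcos0 : 0 ≤ Real.cos (min η π / 2) :=
      Real.cos_nonneg_of_neg_pi_div_two_le_of_le (by linarith) (by linarith)
    have hcos1 : Real.cos (min η π / 2) < 1 := by
      rw [← Real.cos_zero]
      exact Real.cos_lt_cos_of_nonneg_of_le_pi (le_refl 0) (by linarith) (by linarith)
    have hq0 : 0 ≤ q := by positivity
    have hq1 : q < 1 := by
      rw [hq]
      nlinarith
    have hlim : Tendsto (fun n : ℕ => (2 * (n : ℝ) + 1) * q ^ n) atTop (𝓝 0) := by
      have h1 := (tendsto_self_mul_const_pow_of_lt_one hq0 hq1).const_mul 2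
      have h2 := tendsto_pow_atTop_nhds_zero_of_lt_one hq0 hq1
      have h3 := h1.add h2
      simp only [mul_zero, add_zero] at h3
      refine h3.congr fun n => ?_
      ring
    refine squeeze_zero' (Eventually.of_forall fun n => ?_) (Eventually.of_forall fun n => ?_) hlim
    · refine setIntegral_nonneg_of_ae_restrict (ae_of_all _ fun s => ?_)
      simp only [Pi.zero_apply]
      refine indicator_nonneg (fun s _ => ?_) s
      have := aW_pos n
      have h2 : 0 ≤ Real.cos (s / 2) ^ (2 * n) := by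
        rw [pow_mul]; positivity
      positivity
    · have ha := aW_pos n
      have := setIntegral_tail_le (F := fun s => 1 / (2 * π * aW n) * Real.cos (s / 2) ^ (2 * n))
        (η := η) (D := 1 / (2 * π * aW n) * q ^ n)
        (((hcont n).integrableOn_Icc).mono_set Ioc_subset_Icc_self)
        (fun s hs1 hs2 => by
          have hc1 : Real.cos (|s| / 2) ≤ Real.cos (min η π / 2) :=
            Real.cos_le_cos_of_nonneg_of_le_pi (by linarith) (by linarith [abs_nonneg s])
              (by linarith [min_le_left η π])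
          have hc0 : 0 ≤ Real.cos (|s| / 2) :=
            Real.cos_nonneg_of_neg_pi_div_two_le_of_le (by linarith [abs_nonneg s]) (by linarith)
          have hc2 : Real.cos (s / 2) ^ 2 = Real.cos (|s| / 2) ^ 2 := by
            rw [← Real.cos_abs (s / 2), abs_div, abs_two]
          rw [pow_mul, hc2]
          have : (Real.cos (|s| / 2) ^ 2) ^ n ≤ q ^ n := by
            refine pow_le_pow_left₀ (by positivity) ?_ n
            exact pow_le_pow_left₀ hc0 hc1 2
          gcongr) (by positivity)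
      refine this.trans ?_
      have e : 1 / (2 * π * aW n) * q ^ n * (2 * π) = 1 / aW n * q ^ n := by
        field_simp
      rw [e]
      refine mul_le_mul_of_nonneg_right ?_ (by positivity)
      rw [div_le_iff₀ ha]
      have := aW_ge n
      rw [div_le_iff₀ (by positivity)] at this
      linarith
  · intro A hA
    refine ⟨1 / (2 * π) * Real.exp (-(A ^ 2 / 2)), by positivity, ?_⟩
    have hev2 : ∀ᶠ n : ℕ in atTop, A ^ 2 + 1 < (n : ℝ) :=
      tendsto_natCast_atTop_atTop.eventually_gt_atTop _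
    filter_upwards [eventually_gt_atTop 0, hev2] with n hn hn2 s hs
    have hn' : (0 : ℝ) < n := by exact_mod_cast hn
    have hsn : 0 < √(n : ℝ) := Real.sqrt_pos.mpr hn'
    have hs2 : (n : ℝ) * s ^ 2 ≤ A ^ 2 := by
      have h3 : |s| * √(n : ℝ) ≤ A := by
        rw [mul_one_div, le_div_iff₀ hsn] at hs
        exact hs
      have h4 : (|s| * √(n : ℝ)) ^ 2 ≤ A ^ 2 := pow_le_pow_left₀ (by positivity) h3 2
      rw [mul_pow, sq_abs, Real.sq_sqrt hn'.le] at h4
      linarith
    have hs1 : s ^ 2 < 1 := by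
      by_contra hcon
      push Not at hcon
      nlinarith
    have habs : |s| < 1 := by
      rw [← sq_abs] at hs1
      nlinarith [abs_nonneg s]
    have hmem : s ∈ Ioc (-π) π := by
      have := abs_lt.mp habs
      have := Real.pi_gt_three
      exact ⟨by linarith, by linarith⟩
    rw [indicator_of_mem hmem]
    have ha := aW_pos n
    have ha1 : aW n * √(n : ℝ) ≤ 1 := by
      have h5 : (aW n * √(n : ℝ)) ^ 2 ≤ 1 := by
        rw [mul_pow, Real.sq_sqrt hn'.le]
        have := aW_sq_le n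
        nlinarith [sq_nonneg (aW n)]
      nlinarith [mul_pos ha hsn]
    have hx : 1 - s ^ 2 / 8 ≤ Real.cos (s / 2) := by
      have := Real.one_sub_sq_div_two_le_cos (x := s / 2)
      nlinarith
    have hexp : Real.exp (-(s ^ 2 / 4)) ≤ 1 - s ^ 2 / 8 := by
      rw [Real.exp_neg]
      have h6 := Real.add_one_le_exp (s ^ 2 / 4)
      have h7 : (Real.exp (s ^ 2 / 4))⁻¹ ≤ (s ^ 2 / 4 + 1)⁻¹ := by
        apply inv_anti₀ (by positivity) h6
      refine h7.trans ?_
      rw [inv_le_iff_one_le_mul₀ (by positivity)]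
      nlinarith [sq_nonneg s]
    have hpow : Real.exp (-(A ^ 2 / 2)) ≤ Real.cos (s / 2) ^ (2 * n) := by
      calc Real.exp (-(A ^ 2 / 2)) ≤ Real.exp (-(s ^ 2 / 4)) ^ (2 * n) := by
            rw [← Real.exp_nat_mul]
            apply Real.exp_le_exp.mpr
            push_cast
            nlinarith
        _ ≤ Real.cos (s / 2) ^ (2 * n) :=
            pow_le_pow_left₀ (Real.exp_pos _).le (hexp.trans hx) _
    have h8 : 1 ≤ 1 / (aW n * √(n : ℝ)) := by
      rw [le_div_iff₀ (by positivity)]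
      linarith
    calc 1 / (2 * π) * Real.exp (-(A ^ 2 / 2)) ≤ 1 / (2 * π) * Real.cos (s / 2) ^ (2 * n) := by
          gcongr
      _ = 1 / (2 * π) * Real.cos (s / 2) ^ (2 * n) * 1 := by ring
      _ ≤ 1 / (2 * π) * Real.cos (s / 2) ^ (2 * n) * (1 / (aW n * √(n : ℝ))) := by
          refine mul_le_mul_of_nonneg_left h8 ?_
          have : 0 ≤ Real.cos (s / 2) ^ (2 * n) := (Real.exp_pos _).le.trans hpow
          positivity
      _ = _ := by
          field_simp
  · refine Eventually.of_forall fun n x => ?_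
    have e : (fun s => f (x + s) * (Ioc (-π) π).indicator
        (fun s => 1 / (2 * π * aW n) * Real.cos (s / 2) ^ (2 * n)) s) =
        (Ioc (-π) π).indicator (fun s =>
        ((n.factorial : ℝ) ^ 2 / ((2 * n).factorial : ℝ)) * (1 / (2 * π)) *
          (f (x + s) * (2 * Real.cos (s / 2)) ^ (2 * n))) := by
      funext s
      by_cases h : s ∈ Ioc (-π) π
      · rw [indicator_of_mem h, indicator_of_mem h, ← kernelV_eq]; ring
      · rw [indicator_of_notMem h, indicator_of_notMem h, mul_zero]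
    rw [e, integral_indicator_eq, intervalIntegral.integral_const_mul, mul_assoc]
    rfl
  · filter_upwards [hCe, eventually_gt_atTop 0] with n hn1 hn
    have hn' : (0 : ℝ) < n := by exact_mod_cast hn
    have hs : 0 < √(n : ℝ) := Real.sqrt_pos.mpr hn'
    rw [mul_one_div, ENNReal.ofReal_div_of_pos hs, ENNReal.lt_div_iff_mul_lt, mul_comm]
    · exact hn1
    · left
      exact (ENNReal.ofReal_pos.mpr hs).ne'
    · left
      exact ENNReal.ofReal_ne_top


/-- Every bounded Lebesgue measurable function satisfying (W), (P) or (V) is continuous; in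
particular it has no point of discontinuity of the second kind.  (In the cases (P) and (V) the
`2π`-periodicity of `f` is not needed.) -/
theorem result {α : ℝ} (hα : 0 < α) {f : ℝ → ℝ} (hf : AEMeasurable f volume)
    (hb : ∃ B : ℝ, ∀ x, |f x| ≤ B) (h : CondW α f ∨ CondP α f ∨ CondV α f) :
    Continuous f ∧ ¬ ∃ x, IsSecondKind f x := by
  obtain ⟨B, hB⟩ := hb
  have hc : Continuous f := by
    rcases h with h | h | h
    · exact continuous_of_condW hα hf hB h
    · exact continuous_of_condP hα hf hB h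
    · exact continuous_of_condV hα hf hB h
  exact ⟨hc, fun ⟨x, hx⟩ => hx.1 hc.continuousAt⟩

end Pool.Agent.Results.MP_7489b4_an.NoSecondKind
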